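import Pool.Agent.Helper69.DF.VirtUnip

set_option autoImplicit false

namespace Pool.Agent.Results.MP_df3f9a_al.ProperFactorsUnipotent

open Pool.Agent.Helper69.DF

theorem result (n d : ℕ) (hn : 3 ≤ n)
    (ρ : FreeGroup (Fin n) →* Matrix.SpecialLinearGroup (Fin d) ℂ)
    (Z : Set (Matrix (Fin d) (Fin d) ℂ))
    (hZ : ∀ M : Matrix (Fin d) (Fin d) ℂ, M ∈ Z ↔
      ∀ p : MvPolynomial (Fin d × Fin d) ℂ,
        (∀ x : FreeGroup (Fin n),
          MvPolynomial.eval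
            (fun ij : Fin d × Fin d => (ρ x : Matrix (Fin d) (Fin d) ℂ) ij.1 ij.2) p = 0) →
        MvPolynomial.eval (fun ij : Fin d × Fin d => M ij.1 ij.2) p = 0)
    (hconn : ∀ p q : MvPolynomial (Fin d × Fin d) ℂ,
      (∀ M ∈ Z, MvPolynomial.eval (fun ij : Fin d × Fin d => M ij.1 ij.2) (p * q) = 0) →
      (∀ M ∈ Z, MvPolynomial.eval (fun ij : Fin d × Fin d => M ij.1 ij.2) p = 0) ∨
      (∀ M ∈ Z, MvPolynomial.eval (fun ij : Fin d × Fin d => M ij.1 ij.2) q = 0))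
    (hnc : ∃ A ∈ Z, ∃ B ∈ Z, A * B ≠ B * A)
    (hsimple : ∀ H : Set (Matrix (Fin d) (Fin d) ℂ), H ⊆ Z →
      (1 : Matrix (Fin d) (Fin d) ℂ) ∈ H →
      (∀ A ∈ H, ∀ B ∈ H, A * B ∈ H) →
      (∀ A ∈ H, A⁻¹ ∈ H) →
      (∀ A ∈ Z, ∀ B ∈ H, A * B * A⁻¹ ∈ H) →
      (∀ M : Matrix (Fin d) (Fin d) ℂ,
        (∀ p : MvPolynomial (Fin d × Fin d) ℂ,
          (∀ B ∈ H, MvPolynomial.eval (fun ij : Fin d × Fin d => B ij.1 ij.2) p = 0) →
          MvPolynomial.eval (fun ij : Fin d × Fin d => M ij.1 ij.2) p = 0) → M ∈ H) →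
      (∀ p q : MvPolynomial (Fin d × Fin d) ℂ,
        (∀ B ∈ H, MvPolynomial.eval (fun ij : Fin d × Fin d => B ij.1 ij.2) (p * q) = 0) →
        (∀ B ∈ H, MvPolynomial.eval (fun ij : Fin d × Fin d => B ij.1 ij.2) p = 0) ∨
        (∀ B ∈ H, MvPolynomial.eval (fun ij : Fin d × Fin d => B ij.1 ij.2) q = 0)) →
      H = {1} ∨ H = Z)
    (hchar : ∀ σ : FreeGroup (Fin n) ≃* FreeGroup (Fin n),
      ∃ g : Matrix.SpecialLinearGroup (Fin d) ℂ,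
        ∀ x : FreeGroup (Fin n), ρ (σ x) = g * ρ x * g⁻¹) :
    ∃ N : Subgroup (FreeGroup (Fin n)), N.Normal ∧ N.FiniteIndex ∧
      ∀ (σ : FreeGroup (Fin n) ≃* FreeGroup (Fin n)) (j : Fin n),
        ∀ w ∈ N, w ∈ Subgroup.closure ((fun k => σ (FreeGroup.of k)) '' {k : Fin n | k ≠ j}) →
          ((ρ w : Matrix (Fin d) (Fin d) ℂ) - 1) ^ d = 0 := by
  obtain ⟨N, hN, hN', h⟩ := exists_unip_subgroup ρ
  refine ⟨N, hN, hN', ?_⟩
  intro σ j w hw hwj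
  refine h w hw fun ζ hζ => ?_
  refine eig_root_of_unity (by simpa using hn) ρ Z hZ hconn hnc hsimple hchar σ.symm j ?_ ζ hζ
  have h1 : Subgroup.closure ((fun k => σ (FreeGroup.of k)) '' {k : Fin n | k ≠ j}) =
      (Gj j).map σ.toMonoidHom := by
    rw [MonoidHom.map_closure, Set.image_image]
    rfl
  rw [h1] at hwj
  obtain ⟨u, hu, rfl⟩ := hwj
  have h2 : σ.symm (σ.toMonoidHom u) = u := σ.symm_apply_apply u
  rw [h2]
  exact hu

end Pool.Agent.Results.MP_df3f9a_al.ProperFactorsUnipotent
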